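import Mathlib
import Pool.Agent.H19.ScB

set_option autoImplicit false

namespace Pool.Agent.Results.MP_1441be_gt.NoEmbed

/-- For `n < m`, the space of separately continuous real functions on `[0,1]^m` with the pointwise
topology does not embed in the corresponding space on `[0,1]^n`. -/
theorem result (n m : ℕ) (hnm : n < m) :
    ¬ ∃ e : {f : (Fin m → Set.Icc (0:ℝ) 1) → ℝ //
          ∀ i x, Continuous fun t => f (Function.update x i t)} →
        {f : (Fin n → Set.Icc (0:ℝ) 1) → ℝ //
          ∀ i x, Continuous fun t => f (Function.update x i t)},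
      Topology.IsEmbedding e :=
  fun ⟨e, he⟩ => Pool.Agent.H19.Sc.main hnm e he

end Pool.Agent.Results.MP_1441be_gt.NoEmbed
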